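import Pool.Agent.H13.SR.Defs

/-!
# Project SR, module P: trace minimality
-/

set_option autoImplicit false

namespace Pool.Agent.H13.SR.P

open Multiset

/-- primitive cube root of unity -/
noncomputable def om : ℂ := ⟨-1 / 2, Real.sqrt 3 / 2⟩

lemma s3 : Real.sqrt 3 * Real.sqrt 3 = 3 := Real.mul_self_sqrt (by norm_num)

lemma om2 : om ^ 2 = ⟨-1 / 2, -(Real.sqrt 3 / 2)⟩ := by
  have h := s3
  apply Complex.ext
  · simp only [om, pow_two, Complex.mul_re]; nlinarith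
  · simp only [om, pow_two, Complex.mul_im]; ring

lemma om3 : om ^ 3 = 1 := by
  have h := s3
  rw [pow_succ, om2]
  apply Complex.ext
  · simp only [om, Complex.mul_re, Complex.one_re]; nlinarith
  · simp only [om, Complex.mul_im, Complex.one_im]; ring

lemma om_sum : 1 + om + om ^ 2 = 0 := by
  rw [om2]
  apply Complex.ext
  · simp [om]; norm_num
  · simp [om]

lemma om_pow (k : ℕ) : om ^ k = om ^ (k % 3) := by
  conv_lhs => rw [← Nat.div_add_mod k 3, pow_add, pow_mul, om3, one_pow, one_mul]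

lemma om_norm : ‖om‖ = 1 := by
  have h : ‖om‖ ^ 3 = 1 := by rw [← norm_pow, om3, norm_one]
  exact (pow_eq_one_iff_of_nonneg (norm_nonneg _) (by norm_num)).1 h

lemma om_pow_inj {m n : ℕ} (h : om ^ m = om ^ n) : m % 3 = n % 3 := by
  rw [om_pow m, om_pow n] at h
  have hs : 0 < Real.sqrt 3 := Real.sqrt_pos.2 (by norm_num)
  have hm : m % 3 < 3 := Nat.mod_lt _ (by norm_num)
  have hn : n % 3 < 3 := Nat.mod_lt _ (by norm_num)
  generalize m % 3 = a at h hm ⊢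
  generalize n % 3 = b at h hn ⊢
  have him := congrArg Complex.im h
  have hre := congrArg Complex.re h
  have hc : ∀ j : ℕ, j < 3 → (om ^ j).im = if j = 0 then 0 else if j = 1 then Real.sqrt 3 / 2
      else -(Real.sqrt 3 / 2) := by
    intro j hj
    interval_cases j
    · simp
    · simp [om]
    · rw [om2]; simp
  rw [hc a hm, hc b hn] at him
  interval_cases a <;> interval_cases b <;> simp at him ⊢ <;> linarith

/-- the quadratic form -/
def Q (a b c : ℤ) : ℤ := a ^ 2 + b ^ 2 + c ^ 2 - a * b - b * c - c * a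

lemma normSq_form (a b c : ℝ) : ‖(a : ℂ) + b * om + c * om ^ 2‖ ^ 2 =
    a ^ 2 + b ^ 2 + c ^ 2 - a * b - b * c - c * a := by
  rw [← Complex.normSq_eq_norm_sq, Complex.normSq_apply, om2]
  simp only [om, Complex.add_re, Complex.add_im, Complex.mul_re, Complex.mul_im,
    Complex.ofReal_re, Complex.ofReal_im]
  nlinarith [s3]

/-- the multiset with given multiplicities -/
noncomputable def R3 (g : ℂ) (t : ℕ × ℕ × ℕ) : Multiset ℂ :=
  replicate t.1 g + replicate t.2.1 (g * om) + replicate t.2.2 (g * om ^ 2)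

lemma exists_R3 {g : ℂ} (T : Multiset ℂ) (hT : ∀ b ∈ T, b ^ 3 = g ^ 3) :
    ∃ t, T = R3 g t := by
  induction T using Multiset.induction with
  | empty => exact ⟨(0, 0, 0), by simp [R3]⟩
  | cons a T ih =>
    obtain ⟨t, ht⟩ := ih fun b hb => hT b (mem_cons_of_mem hb)
    have ha := hT a (mem_cons_self a T)
    have h1 : (a - g) * ((a - g * om) * (a - g * om ^ 2)) = 0 := by
      have h2 : (a - g) * ((a - g * om) * (a - g * om ^ 2)) =
          (a ^ 3 - g ^ 3) - a ^ 2 * g * (1 + om + om ^ 2) + a * g ^ 2 * om * (1 + om + om ^ 2)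
            - g ^ 3 * (om ^ 3 - 1) := by ring
      rw [h2, om_sum, om3, ha]; ring
    rcases mul_eq_zero.1 h1 with h | h
    · refine ⟨(t.1 + 1, t.2.1, t.2.2), ?_⟩
      rw [ht, sub_eq_zero.1 h]
      simp [R3, replicate_succ]
    rcases mul_eq_zero.1 h with h | h
    · refine ⟨(t.1, t.2.1 + 1, t.2.2), ?_⟩
      rw [ht, sub_eq_zero.1 h]
      simp [R3, replicate_succ]
    · refine ⟨(t.1, t.2.1, t.2.2 + 1), ?_⟩
      rw [ht, sub_eq_zero.1 h]
      simp [R3, replicate_succ]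

lemma R3_card (g : ℂ) (t : ℕ × ℕ × ℕ) : (R3 g t).card = t.1 + t.2.1 + t.2.2 := by
  simp [R3]

lemma R3_ps (g : ℂ) (t : ℕ × ℕ × ℕ) (k : ℕ) : ps (R3 g t) k =
    g ^ k * (t.1 + t.2.1 * om ^ k + t.2.2 * (om ^ 2) ^ k) := by
  simp only [ps, R3, Multiset.map_add, Multiset.sum_add, map_replicate, sum_replicate,
    nsmul_eq_mul, mul_pow]
  ring

lemma R3_prod (g : ℂ) (t : ℕ × ℕ × ℕ) : (R3 g t).prod =
    g ^ (t.1 + t.2.1 + t.2.2) * om ^ (t.2.1 + 2 * t.2.2) := by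
  simp only [R3, Multiset.prod_add, prod_replicate, mul_pow, pow_add, pow_mul]
  ring

lemma R3_ps_norm {g : ℂ} (hg : ‖g‖ = 1) (t : ℕ × ℕ × ℕ) {k : ℕ} (hk : k % 3 ≠ 0) :
    ‖ps (R3 g t) k‖ ^ 2 = Q t.1 t.2.1 t.2.2 := by
  rw [R3_ps, norm_mul, norm_pow, hg, one_pow, one_mul, ← pow_mul, om_pow k, om_pow (2 * k)]
  have h3 : k % 3 < 3 := Nat.mod_lt _ (by norm_num)
  have h4 : (2 * k) % 3 = (2 * (k % 3)) % 3 := by omega
  rw [h4]
  generalize k % 3 = j at h3 hk ⊢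
  interval_cases j
  · exact absurd rfl hk
  · have h := normSq_form t.1 t.2.1 t.2.2
    norm_num
    push_cast at h
    rw [h]; simp [Q]
  · have h := normSq_form t.1 t.2.2 t.2.1
    norm_num
    push_cast at h
    rw [show (t.1 : ℂ) + t.2.1 * om ^ 2 + t.2.2 * om = t.1 + t.2.2 * om + t.2.1 * om ^ 2 by ring, h]
    simp only [Q]; push_cast; ring

lemma R3_ps_norm0 {g : ℂ} (hg : ‖g‖ = 1) (t : ℕ × ℕ × ℕ) {k : ℕ} (hk : k % 3 = 0) :
    ‖ps (R3 g t) k‖ = ((t.1 + t.2.1 + t.2.2 : ℕ) : ℝ) := by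
  rw [R3_ps, norm_mul, norm_pow, hg, one_pow, one_mul, ← pow_mul, om_pow k, om_pow (2 * k)]
  have h4 : (2 * k) % 3 = 0 := by omega
  rw [h4, hk, pow_zero, mul_one, mul_one]
  have : (t.1 : ℂ) + t.2.1 + t.2.2 = ((t.1 + t.2.1 + t.2.2 : ℕ) : ℂ) := by push_cast; ring
  rw [this, Complex.norm_natCast]

lemma Q_nonneg (a b c : ℤ) : 0 ≤ Q a b c := by
  unfold Q; nlinarith [sq_nonneg (a - b), sq_nonneg (b - c), sq_nonneg (c - a)]

lemma Q_mod (a b c : ℤ) : (3 : ℤ) ∣ Q a b c - (a + b + c) ^ 2 :=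
  ⟨-(a * b + b * c + c * a), by unfold Q; ring⟩

lemma Q_pos {a b c x y z : ℤ} (hn : a + b + c = x + y + z) (h : Q x y z = 1) : 1 ≤ Q a b c := by
  have h0 := Q_nonneg a b c
  have h1 := Q_mod a b c
  have h2 := Q_mod x y z
  rw [hn] at h1
  rw [h] at h2
  by_contra hlt
  have h3 : Q a b c = 0 := by omega
  rw [h3] at h1
  have : (3:ℤ) ∣ 1 := by
    have := dvd_sub h2 h1
    simpa using this
  norm_num at this

lemma Q_one_eq {a b c x y z : ℤ} (hn : a + b + c = x + y + z) (h : Q x y z = 1) (h' : Q a b c = 1)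
    (hp : (3:ℤ) ∣ (b + 2 * c) - (y + 2 * z)) : a = x ∧ b = y ∧ c = z := by
  have key : ∀ p q r : ℤ, Q p q r = 1 → (-1 ≤ p - r ∧ p - r ≤ 1) ∧ (-1 ≤ q - r ∧ q - r ≤ 1) ∧
      (-1 ≤ p - q ∧ p - q ≤ 1) := by
    intro p q r hq
    unfold Q at hq
    have e1 : (p - r) ^ 2 ≤ 1 := by
      nlinarith [sq_nonneg (p - r), sq_nonneg (2 * (q - r) - (p - r))]
    have e2 : (q - r) ^ 2 ≤ 1 := by
      nlinarith [sq_nonneg (p - r), sq_nonneg (2 * (p - r) - (q - r))]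
    have e3 : (p - q) ^ 2 ≤ 1 := by
      nlinarith [sq_nonneg (p - q), sq_nonneg (2 * (r - q) - (p - q))]
    exact ⟨abs_le.1 (sq_le_one_iff_abs_le_one _ |>.1 e1), abs_le.1 (sq_le_one_iff_abs_le_one _ |>.1 e2),
      abs_le.1 (sq_le_one_iff_abs_le_one _ |>.1 e3)⟩
  obtain ⟨⟨k1, k2⟩, ⟨k3, k4⟩, k5, k6⟩ := key a b c h'
  obtain ⟨⟨l1, l2⟩, ⟨l3, l4⟩, l5, l6⟩ := key x y z h
  obtain ⟨d, hd⟩ := hp
  have nz : ∀ p q r : ℤ, Q p q r = 1 → ¬ (p - r = 0 ∧ q - r = 0) := by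
    rintro p q r hq ⟨h1, h2⟩
    have e1 : p = r := by omega
    have e2 : q = r := by omega
    subst e1; subst e2
    simp [Q] at hq
    nlinarith
  have m1 := nz a b c h'
  have m2 := nz x y z h
  omega

/-- the multiset of four kinds -/
noncomputable def R4 (g : ℂ) (t : ℕ × ℕ × ℕ × ℕ) : Multiset ℂ :=
  replicate t.1 g + replicate t.2.1 (g * Complex.I) + replicate t.2.2.1 (g * Complex.I ^ 2) +
    replicate t.2.2.2 (g * Complex.I ^ 3)

lemma exists_R4 {g : ℂ} (T : Multiset ℂ) (hT : ∀ b ∈ T, b ^ 4 = g ^ 4) :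
    ∃ t, T = R4 g t := by
  induction T using Multiset.induction with
  | empty => exact ⟨(0, 0, 0, 0), by simp [R4]⟩
  | cons a T ih =>
    obtain ⟨t, ht⟩ := ih fun b hb => hT b (mem_cons_of_mem hb)
    have ha := hT a (mem_cons_self a T)
    have h1 : (a - g) * ((a - g * Complex.I) * ((a - g * Complex.I ^ 2) * (a - g * Complex.I ^ 3)))
        = 0 := by
      have h2 : (a - g) * ((a - g * Complex.I) * ((a - g * Complex.I ^ 2) *
          (a - g * Complex.I ^ 3))) = a ^ 4 - g ^ 4 := by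
        have e3 : Complex.I ^ 3 = -Complex.I := by rw [pow_succ, Complex.I_sq]; ring
        rw [e3, Complex.I_sq]
        have : (a - g) * ((a - g * Complex.I) * ((a - g * -1) * (a - g * -Complex.I))) =
          (a ^ 2 - g ^ 2) * (a ^ 2 - g ^ 2 * Complex.I ^ 2) := by ring
        rw [this, Complex.I_sq]; ring
      rw [h2, ha]; ring
    rcases mul_eq_zero.1 h1 with h | h
    · refine ⟨(t.1 + 1, t.2.1, t.2.2.1, t.2.2.2), ?_⟩
      rw [ht, sub_eq_zero.1 h]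
      simp [R4, replicate_succ]
    rcases mul_eq_zero.1 h with h | h
    · refine ⟨(t.1, t.2.1 + 1, t.2.2.1, t.2.2.2), ?_⟩
      rw [ht, sub_eq_zero.1 h]
      simp [R4, replicate_succ]
    rcases mul_eq_zero.1 h with h | h
    · refine ⟨(t.1, t.2.1, t.2.2.1 + 1, t.2.2.2), ?_⟩
      rw [ht, sub_eq_zero.1 h]
      simp [R4, replicate_succ]
    · refine ⟨(t.1, t.2.1, t.2.2.1, t.2.2.2 + 1), ?_⟩
      rw [ht, sub_eq_zero.1 h]
      simp [R4, replicate_succ]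

lemma R4_ps (g : ℂ) (t : ℕ × ℕ × ℕ × ℕ) (k : ℕ) : ps (R4 g t) k =
    g ^ k * (t.1 + t.2.1 * Complex.I ^ k + t.2.2.1 * (Complex.I ^ 2) ^ k
      + t.2.2.2 * (Complex.I ^ 3) ^ k) := by
  simp only [ps, R4, Multiset.map_add, Multiset.sum_add, map_replicate, sum_replicate,
    nsmul_eq_mul, mul_pow]
  ring

lemma R4_prod (g : ℂ) (t : ℕ × ℕ × ℕ × ℕ) : (R4 g t).prod =
    g ^ (t.1 + t.2.1 + t.2.2.1 + t.2.2.2) * Complex.I ^ (t.2.1 + 2 * t.2.2.1 + 3 * t.2.2.2) := by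
  simp only [R4, Multiset.prod_add, prod_replicate, mul_pow, pow_add, pow_mul]
  ring

lemma I_pow (k : ℕ) : Complex.I ^ k = Complex.I ^ (k % 4) := by
  have h4 : Complex.I ^ 4 = 1 := Complex.I_pow_four
  conv_lhs => rw [← Nat.div_add_mod k 4, pow_add, pow_mul, h4, one_pow, one_mul]

lemma I_pow_inj {m n : ℕ} (h : Complex.I ^ m = Complex.I ^ n) : m % 4 = n % 4 := by
  rw [I_pow m, I_pow n] at h
  have hm : m % 4 < 4 := Nat.mod_lt _ (by norm_num)
  have hn : n % 4 < 4 := Nat.mod_lt _ (by norm_num)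
  generalize m % 4 = a at h hm ⊢
  generalize n % 4 = b at h hn ⊢
  have him := congrArg Complex.im h
  have hre := congrArg Complex.re h
  have e3 : Complex.I ^ 3 = -Complex.I := by rw [pow_succ, Complex.I_sq]; ring
  have hi : ∀ j : ℕ, j < 4 → (Complex.I ^ j).im = if j = 1 then 1 else if j = 3 then -1 else 0 := by
    intro j hj
    interval_cases j
    · simp
    · simp
    · simp
    · rw [e3]; simp
  have hr : ∀ j : ℕ, j < 4 → (Complex.I ^ j).re = if j = 0 then 1 else if j = 2 then -1 else 0 := by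
    intro j hj
    interval_cases j
    · simp
    · simp
    · simp
    · rw [e3]; simp
  rw [hi a hm, hi b hn] at him
  rw [hr a hm, hr b hn] at hre
  interval_cases a <;> interval_cases b <;> first
    | rfl
    | (exfalso; revert him; norm_num; done)
    | (exfalso; revert hre; norm_num; done)

lemma R4_ps_norm_odd {g : ℂ} (hg : ‖g‖ = 1) (t : ℕ × ℕ × ℕ × ℕ) {k : ℕ} (hk : k % 2 = 1) :
    ‖ps (R4 g t) k‖ ^ 2 = ((t.1 : ℝ) - t.2.2.1) ^ 2 + ((t.2.1 : ℝ) - t.2.2.2) ^ 2 := by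
  rw [R4_ps, norm_mul, norm_pow, hg, one_pow, one_mul, ← pow_mul, ← pow_mul, I_pow k,
    I_pow (2 * k), I_pow (3 * k)]
  have e3 : Complex.I ^ 3 = -Complex.I := by rw [pow_succ, Complex.I_sq]; ring
  have h2 : (2 * k) % 4 = 2 := by omega
  have h3 : k % 4 = 1 ∧ (3 * k) % 4 = 3 ∨ k % 4 = 3 ∧ (3 * k) % 4 = 1 := by omega
  rw [h2, Complex.I_sq, ← Complex.normSq_eq_norm_sq, Complex.normSq_apply]
  rcases h3 with ⟨h, h'⟩ | ⟨h, h'⟩ <;> rw [h, h', e3] <;> simp <;> ring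

lemma R4_ps_even (g : ℂ) (t : ℕ × ℕ × ℕ × ℕ) {k : ℕ} (hk : k % 2 = 0) :
    ps (R4 g t) k = g ^ k * (((t.1 + t.2.2.1 : ℕ) : ℂ) + ((t.2.1 + t.2.2.2 : ℕ) : ℂ)
      * Complex.I ^ k) := by
  rw [R4_ps, ← pow_mul, ← pow_mul, I_pow (2 * k), I_pow (3 * k), I_pow k]
  have h2 : (2 * k) % 4 = 0 := by omega
  have h3 : (3 * k) % 4 = k % 4 := by omega
  rw [h2, h3]
  push_cast
  ring

end Pool.Agent.H13.SR.P

namespace Pool.Agent.H13.SR

open P Multiset

/-- P3 -/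
theorem min3 {X T : Multiset ℂ} {c : ℂ} (hc : ‖c‖ = 1) (hX : ∀ a ∈ X, a ^ 3 = c)
    (hT : T.map (fun a => a ^ 3) = X.map (fun a => a ^ 3)) (hd : T.prod = X.prod)
    (h1 : ‖X.sum‖ = 1) :
    (∀ k, ‖ps X k‖ ≤ ‖ps T k‖) ∧ (T ≠ X → ‖X.sum‖ ^ 2 + 1 ≤ ‖T.sum‖ ^ 2) := by
  have hne : X ≠ 0 := by rintro rfl; simp at h1
  obtain ⟨g, hgX⟩ := exists_mem_of_ne_zero hne
  have hg3 := hX g hgX
  have hg : ‖g‖ = 1 := by
    have : ‖g‖ ^ 3 = 1 := by rw [← norm_pow, hg3, hc]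
    exact (pow_eq_one_iff_of_nonneg (norm_nonneg _) (by norm_num)).1 this
  have hg0 : g ≠ 0 := by intro h; rw [h, norm_zero] at hg; norm_num at hg
  have hcard : card T = card X := by
    have := congrArg card hT
    simpa using this
  have hTc : ∀ b ∈ T, b ^ 3 = c := by
    intro b hb
    have : b ^ 3 ∈ X.map (fun a => a ^ 3) := hT ▸ mem_map_of_mem (fun a => a ^ 3) hb
    obtain ⟨a, ha, hab⟩ := mem_map.1 this
    rw [← hab]; exact hX a ha
  obtain ⟨x, rfl⟩ := exists_R3 (g := g) X (fun a ha => by rw [hX a ha, hg3])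
  obtain ⟨t, rfl⟩ := exists_R3 (g := g) T (fun a ha => by rw [hTc a ha, hg3])
  rw [R3_card, R3_card] at hcard
  have hsum : ∀ y : ℕ × ℕ × ℕ, (R3 g y).sum = ps (R3 g y) 1 := by intro y; simp [ps]
  have hQx : Q x.1 x.2.1 x.2.2 = 1 := by
    have := R3_ps_norm hg x (k := 1) (by norm_num)
    rw [← hsum, h1] at this
    have h2 : ((Q x.1 x.2.1 x.2.2 : ℤ) : ℝ) = 1 := by rw [← this]; norm_num
    exact_mod_cast h2
  have hn : (t.1 : ℤ) + t.2.1 + t.2.2 = x.1 + x.2.1 + x.2.2 := by exact_mod_cast hcard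
  have hQt := Q_pos hn hQx
  constructor
  · intro k
    by_cases hk : k % 3 = 0
    · rw [R3_ps_norm0 hg x hk, R3_ps_norm0 hg t hk, hcard]
    · have e1 := R3_ps_norm hg x hk
      have e2 := R3_ps_norm hg t hk
      rw [hQx] at e1
      refine le_of_sq_le_sq ?_ (norm_nonneg _)
      rw [e1, e2]
      exact_mod_cast hQt
  · intro hTX
    rw [h1, hsum, R3_ps_norm hg t (k := 1) (by norm_num)]
    have h2 : Q t.1 t.2.1 t.2.2 ≠ 1 := by
      intro hQ
      apply hTX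
      rw [R3_prod, R3_prod, hcard] at hd
      have h3 : om ^ (t.2.1 + 2 * t.2.2) = om ^ (x.2.1 + 2 * x.2.2) :=
        mul_left_cancel₀ (pow_ne_zero _ hg0) hd
      have h4 := om_pow_inj h3
      obtain ⟨a1, a2, a3⟩ := Q_one_eq hn hQx hQ (by omega)
      have : t = x := by
        ext
        · exact_mod_cast a1
        · exact_mod_cast a2
        · exact_mod_cast a3
      rw [this]
    have h3 : 2 ≤ Q t.1 t.2.1 t.2.2 := by omega
    have h4 : (2:ℝ) ≤ (Q t.1 t.2.1 t.2.2 : ℤ) := by exact_mod_cast h3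
    linarith

/-- P2 -/
theorem min2 {X T : Multiset ℂ} {c : ℂ} (hc : ‖c‖ = 1) (hX : ∀ a ∈ X, a ^ 4 = c)
    (hT : T.map (fun a => a ^ 2) = X.map (fun a => a ^ 2)) (hd : T.prod = X.prod)
    (h1 : ‖X.sum‖ = 1) :
    (∀ k, ‖ps X k‖ ≤ ‖ps T k‖) ∧ (T ≠ X → ‖X.sum‖ ^ 2 + 1 ≤ ‖T.sum‖ ^ 2) := by
  have hne : X ≠ 0 := by rintro rfl; simp at h1
  obtain ⟨g, hgX⟩ := exists_mem_of_ne_zero hne
  have hg4 := hX g hgX
  have hg : ‖g‖ = 1 := by
    have : ‖g‖ ^ 4 = 1 := by rw [← norm_pow, hg4, hc]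
    exact (pow_eq_one_iff_of_nonneg (norm_nonneg _) (by norm_num)).1 this
  have hg0 : g ≠ 0 := by intro h; rw [h, norm_zero] at hg; norm_num at hg
  have hTc : ∀ b ∈ T, b ^ 4 = c := by
    intro b hb
    have : b ^ 2 ∈ X.map (fun a => a ^ 2) := hT ▸ mem_map_of_mem (fun a => a ^ 2) hb
    obtain ⟨a, ha, hab⟩ := mem_map.1 this
    have : b ^ 4 = a ^ 4 := by
      calc b ^ 4 = (b ^ 2) ^ 2 := by ring
        _ = (a ^ 2) ^ 2 := by rw [← hab]
        _ = a ^ 4 := by ring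
    rw [this]; exact hX a ha
  obtain ⟨x, rfl⟩ := exists_R4 (g := g) X (fun a ha => by rw [hX a ha, hg4])
  obtain ⟨t, rfl⟩ := exists_R4 (g := g) T (fun a ha => by rw [hTc a ha, hg4])
  -- counts of `g ^ 2` and `- g ^ 2`
  have hmap : ∀ y : ℕ × ℕ × ℕ × ℕ, (R4 g y).map (fun a => a ^ 2) =
      replicate (y.1 + y.2.2.1) (g ^ 2) + replicate (y.2.1 + y.2.2.2) (-g ^ 2) := by
    intro y
    have e3 : Complex.I ^ 3 = -Complex.I := by rw [pow_succ, Complex.I_sq]; ring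
    simp only [R4, Multiset.map_add, map_replicate, mul_pow, e3, Complex.I_sq, neg_sq, one_pow,
      mul_one, replicate_add, mul_neg]
    abel
  have hgg : (-g ^ 2 : ℂ) ≠ g ^ 2 := by
    intro h
    have : g ^ 2 = 0 := by linear_combination (-1/2 : ℂ) * h
    exact pow_ne_zero 2 hg0 this
  have hcount : ∀ y : ℕ × ℕ × ℕ × ℕ, count (g ^ 2) ((R4 g y).map (fun a => a ^ 2)) =
      y.1 + y.2.2.1 ∧ count (-g ^ 2) ((R4 g y).map (fun a => a ^ 2)) = y.2.1 + y.2.2.2 := by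
    intro y
    rw [hmap y]
    constructor
    · rw [count_add, count_replicate_self, count_replicate, if_neg hgg, add_zero]
    · rw [count_add, count_replicate_self, count_replicate, if_neg hgg.symm, zero_add]
  have hA : t.1 + t.2.2.1 = x.1 + x.2.2.1 := by rw [← (hcount t).1, hT, (hcount x).1]
  have hB : t.2.1 + t.2.2.2 = x.2.1 + x.2.2.2 := by rw [← (hcount t).2, hT, (hcount x).2]
  have hsum : ∀ y : ℕ × ℕ × ℕ × ℕ, (R4 g y).sum = ps (R4 g y) 1 := by intro y; simp [ps]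
  have hx1 : ((x.1 : ℤ) - x.2.2.1) ^ 2 + ((x.2.1 : ℤ) - x.2.2.2) ^ 2 = 1 := by
    have := R4_ps_norm_odd hg x (k := 1) (by norm_num)
    rw [← hsum, h1] at this
    have h2 : ((((x.1 : ℤ) - x.2.2.1) ^ 2 + ((x.2.1 : ℤ) - x.2.2.2) ^ 2 : ℤ) : ℝ) = 1 := by
      push_cast; rw [← this]; norm_num
    exact_mod_cast h2
  have key : ∀ p q : ℤ, p ^ 2 + q ^ 2 = 1 → (p = 0 ∧ (q = 1 ∨ q = -1)) ∨ (q = 0 ∧ (p = 1 ∨ p = -1)) := by
    intro p q h
    have e1 : p ^ 2 ≤ 1 := by nlinarith [sq_nonneg q]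
    have e2 : q ^ 2 ≤ 1 := by nlinarith [sq_nonneg p]
    obtain ⟨h1, h2⟩ := abs_le.1 (sq_le_one_iff_abs_le_one _ |>.1 e1)
    obtain ⟨h3, h4⟩ := abs_le.1 (sq_le_one_iff_abs_le_one _ |>.1 e2)
    interval_cases p <;> interval_cases q <;> simp_all
  have hx2 := key _ _ hx1
  have ht1 : 1 ≤ ((t.1 : ℤ) - t.2.2.1) ^ 2 + ((t.2.1 : ℤ) - t.2.2.2) ^ 2 := by
    have h2 : (t.1 : ℤ) - t.2.2.1 ≠ 0 ∨ (t.2.1 : ℤ) - t.2.2.2 ≠ 0 := by omega
    rcases h2 with h | h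
    · have := pow_pos (abs_pos.2 h) 2
      rw [sq_abs] at this
      nlinarith [sq_nonneg ((t.2.1 : ℤ) - t.2.2.2)]
    · have := pow_pos (abs_pos.2 h) 2
      rw [sq_abs] at this
      nlinarith [sq_nonneg ((t.1 : ℤ) - t.2.2.1)]
  constructor
  · intro k
    rcases Nat.mod_two_eq_zero_or_one k with hk | hk
    · rw [R4_ps_even g x hk, R4_ps_even g t hk, hA, hB]
    · have e1 := R4_ps_norm_odd hg x hk
      have e2 := R4_ps_norm_odd hg t hk
      refine le_of_sq_le_sq ?_ (norm_nonneg _)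
      rw [e1, e2]
      have : ((x.1 : ℤ) - x.2.2.1) ^ 2 + ((x.2.1 : ℤ) - x.2.2.2) ^ 2 ≤
          ((t.1 : ℤ) - t.2.2.1) ^ 2 + ((t.2.1 : ℤ) - t.2.2.2) ^ 2 := by rw [hx1]; exact ht1
      exact_mod_cast this
  · intro hTX
    rw [h1, hsum, R4_ps_norm_odd hg t (k := 1) (by norm_num)]
    have h2 : ((t.1 : ℤ) - t.2.2.1) ^ 2 + ((t.2.1 : ℤ) - t.2.2.2) ^ 2 ≠ 1 := by
      intro hQ
      apply hTX
      have ht2 := key _ _ hQ
      have hcard : t.1 + t.2.1 + t.2.2.1 + t.2.2.2 = x.1 + x.2.1 + x.2.2.1 + x.2.2.2 := by omega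
      rw [R4_prod, R4_prod, hcard] at hd
      have h3 := I_pow_inj (mul_left_cancel₀ (pow_ne_zero _ hg0) hd)
      have : t.1 = x.1 ∧ t.2.1 = x.2.1 ∧ t.2.2.1 = x.2.2.1 ∧ t.2.2.2 = x.2.2.2 := by omega
      obtain ⟨a1, a2, a3, a4⟩ := this
      have : t = x := by
        ext
        · exact a1
        · exact a2
        · exact a3
        · exact a4
      rw [this]
    have h3 : 2 ≤ ((t.1 : ℤ) - t.2.2.1) ^ 2 + ((t.2.1 : ℤ) - t.2.2.2) ^ 2 := by omega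
    have h4 : (2:ℝ) ≤ ((t.1 : ℝ) - t.2.2.1) ^ 2 + ((t.2.1 : ℝ) - t.2.2.2) ^ 2 := by exact_mod_cast h3
    linarith

end Pool.Agent.H13.SR
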